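import Mathlib
import Pool.Agent.Results.MP_732884_lc.Undec

set_option autoImplicit false

/-!
Equality of a regular language with the shuffle of a regular and a DCM(1,1) language is
undecidable.
-/

namespace Pool.Agent.Results.MP_435b2a_lc.Undec

open Pool.Agent.Results.MP_732884_lc.Undec Pool.Agent.Lib.helper21 Mach While

theorem core : ∃ (A : Type) (_ : Finite A) (_ : Primcodable A) (L₁ L₀ : Language A) (M : DCM A)
    (p : ℕ → List A), L₁.IsRegular ∧ L₀.IsRegular ∧ M.OneReversal ∧ Primrec p ∧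
      ¬ ComputablePred fun n => ∀ w ∈ L₀, p n ++ w ∈ shuffle L₁ M.lang := by
  obtain ⟨Q, _, M, q₀, hM⟩ := Queue.exists_cm0
  obtain ⟨K, hK⟩ := (Set.finite_range M.reg).bddAbove
  let ρ : Q → Fin (K + 1) := fun q => ⟨M.reg q, Nat.lt_succ_of_le (hK ⟨q, rfl⟩)⟩
  let pc : Primcodable (Sym (K + 1)) := Primcodable.ofEquiv _ (Fintype.equivFin _)
  have hp : Primrec fun n : ℕ => Sym.s :: body (0 : Fin (K + 1)) none true (List.replicate n 0) := by
    have h1 : Primrec fun n : ℕ => (List.range n).map fun _ => Sym.a (0 : Fin (K + 1)) true :=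
      Primrec.list_map Primrec.list_range (Primrec.const _).to₂
    refine (Primrec.list_cons.comp (Primrec.const Sym.s) (Primrec.list_append.comp
      (Primrec.const (hd 0 none true)) (Primrec.list_append.comp h1
        (Primrec.const [Sym.t])))).of_eq fun n => ?_
    simp [body]
  refine ⟨Sym (K + 1), inferInstance, pc, L1 _, _, M2 _, _, L1_reg, H_reg M ρ q₀ false, oneRev, hp,
    fun h => hM ?_⟩
  have hst : ∀ n (k : Fin (K + 1)), init n k = adj (ef 0 none k)
      (List.count k (List.replicate n 0)) := by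
    intro n k
    by_cases h : k = 0
    · subst h; simp [init, ef, adj]
    · have : (k : ℕ) ≠ 0 := fun e => h (Fin.ext e)
      simp [init, ef, adj, List.count_replicate, this, Ne.symm h]
  refine h.not.of_eq fun n => ⟨fun hn => ?_, fun hn hle => ?_⟩
  · push Not at hn
    obtain ⟨w, h1, h2⟩ := hn
    exact complete M ρ (fun _ => rfl) h1 _ [] 0 none _ (hst n) h2
  · obtain ⟨bs, b1, b2, b3⟩ := valid M ρ (fun _ => rfl) hn true 0 none _ (hst n)
    refine sound _ (List.forall_mem_cons.2 ⟨s_body _ _ _ _, b2⟩) b3 ?_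
    simpa [flat] using hle _ b1

variable {A : Type}

def up (L : Language A) : Language (Option A) := {w | ∃ u ∈ L, w = u.map some}

def hash (A : Type) : Language (Option A) := {w | none ∈ w}

def cons (l : A) (L : Language A) : Language A := {w | ∃ u ∈ L, w = l :: u}

lemma up_reg {L : Language A} (h : L.IsRegular) : (up L).IsRegular := by
  apply Language.IsRegular.of_finite_range_leftQuotient
  refine ((h.finite_range_leftQuotient.image up).insert 0).subset ?_
  rintro _ ⟨x, rfl⟩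
  by_cases hx : ∃ x' : List A, x = x'.map some
  · obtain ⟨x, rfl⟩ := hx
    refine Or.inr ⟨_, ⟨x, rfl⟩, ?_⟩
    ext w
    constructor
    · rintro ⟨u, hu, rfl⟩
      exact ⟨x ++ u, hu, by simp⟩
    · rintro ⟨u, hu, e⟩
      obtain ⟨a, b, rfl, e1, e2⟩ := List.map_eq_append_iff.1 e.symm
      obtain rfl := List.map_injective_iff.2 (Option.some_injective A) e1
      exact ⟨b, hu, e2.symm⟩
  · left
    ext w
    refine ⟨?_, fun h => h.elim⟩
    rintro ⟨u, -, e⟩
    obtain ⟨a, b, -, e1, -⟩ := List.map_eq_append_iff.1 e.symm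
    exact absurd ⟨a, e1.symm⟩ hx

lemma hash_reg : (hash A).IsRegular := by
  apply Language.IsRegular.of_finite_range_leftQuotient
  refine ((Set.finite_singleton (hash A)).insert ⊤).subset ?_
  rintro _ ⟨x, rfl⟩
  by_cases hx : none ∈ x
  · left
    ext w
    exact ⟨fun _ => trivial, fun _ => List.mem_append_left _ hx⟩
  · right
    ext w
    exact ⟨fun h => (List.mem_append.1 h).resolve_left hx, fun h => List.mem_append_right _ h⟩

lemma cons_reg (l : A) {L : Language A} (h : L.IsRegular) : (cons l L).IsRegular := by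
  apply Language.IsRegular.of_finite_range_leftQuotient
  refine ((h.finite_range_leftQuotient.insert 0).insert (cons l L)).subset ?_
  rintro _ ⟨_ | ⟨k, x⟩, rfl⟩
  · exact Or.inl rfl
  · right
    by_cases e : k = l
    · subst e
      refine Or.inr ⟨x, ?_⟩
      ext w
      exact ⟨fun h => ⟨_, h, rfl⟩, fun ⟨u, hu, e⟩ => by cases e; exact hu⟩
    · left
      ext w
      exact ⟨fun ⟨u, _, e'⟩ => absurd (List.cons.inj e').1 e, fun h => h.elim⟩

def Inv (z : ℕ × Code A) : Prop :=
  z.2.2.1 < z.1 ∧ (∀ t ∈ z.2.1, t.1 < z.1 ∧ t.2.2 < z.1) ∧ ∀ f ∈ z.2.2.2, f < z.1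

def lg (z : ℕ × Code A) (q : ℕ) : Language A := Code.lang (z.2.1, q, z.2.2.2)

lemma exists_code' [Finite A] {L : Language A} (h : L.IsRegular) :
    ∃ (z : ℕ × Code A) (e : List A → ℕ), Inv z ∧ z.2.lang = L ∧
      ∀ x, (L.leftQuotient x).Nonempty → e x < z.1 ∧ lg z (e x) = L.leftQuotient x := by
  classical
  obtain ⟨σ, _, M, rfl⟩ := h
  have := Fintype.ofFinite A
  let e : σ → ℕ := fun q => (Fintype.equivFin σ q).val
  have he : Function.Injective e := fun a b h => (Fintype.equivFin σ).injective (Fin.ext h)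
  have hl : ∀ q, e q < Fintype.card σ := fun q => (Fintype.equivFin σ q).2
  let T : List (ℕ × A × ℕ) := (Finset.univ : Finset (σ × A)).toList.map
    fun x => (e x.1, x.2, e (M.step x.1 x.2))
  have hT : ∀ t, t ∈ T ↔ ∃ q l, (e q, l, e (M.step q l)) = t := by simp [T]
  let F : List ℕ := ((Finset.univ : Finset σ).filter (· ∈ M.accept)).toList.map e
  have hF : ∀ f, f ∈ F ↔ ∃ q ∈ M.accept, e q = f := by simp [F]
  have h1 : ∀ w q, Path T (e q) w (e (M.evalFrom q w)) := by
    intro w
    induction w with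
    | nil => exact fun q => .nil _
    | cons l w ih => exact fun q => .cons ((hT _).2 ⟨q, l, rfl⟩) (ih _)
  have h2 : ∀ p w f, Path T p w f → ∀ q, p = e q → f = e (M.evalFrom q w) := by
    intro p w f h
    induction h with
    | nil p => exact fun q h => h
    | cons h _ ih =>
      rintro q rfl
      obtain ⟨q', l', e'⟩ := (hT _).1 h
      simp only [Prod.mk.injEq] at e'
      obtain ⟨a, rfl, b⟩ := e'
      obtain rfl := he a
      exact ih _ b.symm
  have h3 : ∀ q, Code.lang (T, e q, F) = M.acceptsFrom q := by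
    intro q
    ext w
    constructor
    · rintro ⟨f, hf, hp⟩
      obtain ⟨q', hq, rfl⟩ := (hF _).1 hf
      have := he (h2 _ _ _ hp q rfl)
      exact (show M.evalFrom q w ∈ _ from this ▸ hq)
    · intro h
      exact ⟨_, (hF _).2 ⟨_, h, rfl⟩, h1 w q⟩
  refine ⟨(Fintype.card σ, T, e M.start, F), fun x => e (M.eval x),
    ⟨hl _, fun t ht => ?_, fun f hf => ?_⟩, h3 _,
    fun x _ => ⟨hl _, (h3 _).trans (Language.leftQuotient_accepts_apply M x).symm⟩⟩
  · obtain ⟨q, l, rfl⟩ := (hT _).1 ht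
    exact ⟨hl _, hl _⟩
  · obtain ⟨q, -, rfl⟩ := (hF _).1 hf
    exact hl _

/-- add a new initial state -/
def push (b : Bool) (o : List (A × ℕ)) (l : A) (z : ℕ × Code A) : ℕ × Code A :=
  (z.1 + 1, ((l, z.2.2.1) :: o).map (fun x => (z.1, x)) ++ z.2.1, z.1,
    bif b then z.1 :: z.2.2.2 else z.2.2.2)

lemma path_drop {T T' : List (ℕ × A × ℕ)} {c : ℕ} (hT : ∀ t ∈ T, t.2.2 < c)
    (hT' : ∀ t ∈ T', t.1 = c) {p w f} (h : Path (T' ++ T) p w f) (hp : p < c) :
    Path T p w f ∧ f < c := by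
  induction h with
  | nil p => exact ⟨.nil p, hp⟩
  | cons h _ ih =>
    rcases List.mem_append.1 h with h | h
    · exact absurd (hT' _ h) hp.ne
    · exact ⟨.cons h (ih (hT _ h)).1, (ih (hT _ h)).2⟩

lemma push_spec {z : ℕ × Code A} (h : Inv z) (b : Bool) (o : List (A × ℕ))
    (ho : ∀ x ∈ o, x.2 < z.1) (l : A) :
    Inv (push b o l z) ∧ (∀ q < z.1, lg (push b o l z) q = lg z q) ∧
    ∀ w, w ∈ (push b o l z).2.lang ↔ (w = [] ∧ b = true) ∨ (∃ u ∈ z.2.lang, w = l :: u) ∨
      ∃ x ∈ o, ∃ u ∈ lg z x.2, w = x.1 :: u := by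
  obtain ⟨c, T, p, F⟩ := z
  obtain ⟨h1, h2, h3⟩ := h
  simp only at h1 h2 h3 ho
  have hF : ∀ f, f ∈ (bif b then c :: F else F) ↔ (f = c ∧ b = true) ∨ f ∈ F := by
    cases b <;> simp
  have hT' : ∀ t ∈ ((l, p) :: o).map (fun x => (c, x)), t.1 = c := by
    intro t ht
    obtain ⟨x, -, rfl⟩ := List.mem_map.1 ht
    rfl
  have ho' : ∀ x ∈ (l, p) :: o, x.2 < c := List.forall_mem_cons.2 ⟨h1, ho⟩
  have key : ∀ q < c, lg (push b o l (c, T, p, F)) q = lg (c, T, p, F) q := by
    intro q hq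
    ext w
    constructor
    · rintro ⟨f, hf, hp⟩
      have := path_drop (fun t ht => (h2 t ht).2) hT' hp hq
      exact ⟨f, ((hF f).1 hf).resolve_left fun e => this.2.ne e.1, this.1⟩
    · rintro ⟨f, hf, hp⟩
      exact ⟨f, (hF f).2 (Or.inr hf), hp.mono (List.subset_append_right _ _)⟩
  refine ⟨⟨Nat.lt_succ_self _, fun t ht => ?_, fun f hf => ?_⟩, key, fun w => ⟨?_, ?_⟩⟩
  · rcases List.mem_append.1 ht with ht | ht
    · obtain ⟨x, hx, rfl⟩ := List.mem_map.1 ht
      exact ⟨Nat.lt_succ_self _, (ho' x hx).trans (Nat.lt_succ_self _)⟩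
    · exact ⟨(h2 t ht).1.trans (Nat.lt_succ_self _), (h2 t ht).2.trans (Nat.lt_succ_self _)⟩
  · rcases (hF f).1 hf with e | e
    · exact e.1.trans_lt (Nat.lt_succ_self _)
    · exact (h3 f e).trans (Nat.lt_succ_self _)
  · rintro ⟨f, hf, hp⟩
    change Path (_ ++ T) c w f at hp
    cases hp with
    | nil => exact Or.inl ⟨rfl, (((hF _).1 hf).resolve_right fun e => (h3 _ e).ne rfl).2⟩
    | @cons _ k q u _ h hp =>
      right
      rcases List.mem_append.1 h with h | h
      · obtain ⟨x, hx, e⟩ := List.mem_map.1 h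
        cases e
        have : u ∈ lg (c, T, p, F) q := key q (ho' _ hx) ▸ ⟨f, hf, hp⟩
        rcases List.mem_cons.1 hx with e | hx
        · cases e
          exact Or.inl ⟨u, this, rfl⟩
        · exact Or.inr ⟨_, hx, u, this, rfl⟩
      · exact absurd (h2 _ h).1 (lt_irrefl _)
  · have : ∀ x ∈ (l, p) :: o, ∀ u ∈ lg (c, T, p, F) x.2,
        x.1 :: u ∈ (push b o l (c, T, p, F)).2.lang := by
      intro x hx u hu
      rw [← key _ (ho' x hx)] at hu
      obtain ⟨f, hf, hp⟩ := hu
      exact ⟨f, hf, .cons (List.mem_append_left _ (List.mem_map_of_mem hx)) hp⟩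
    rintro (⟨rfl, hb⟩ | ⟨u, hu, rfl⟩ | ⟨x, hx, u, hu, rfl⟩)
    · exact ⟨c, (hF _).2 (Or.inl ⟨rfl, hb⟩), .nil _⟩
    · exact this _ List.mem_cons_self u hu
    · exact this x (List.mem_cons_of_mem _ hx) u hu

lemma prim_push [Primcodable A] {α : Type} [Primcodable α] (b : Bool) {o : α → List (A × ℕ)}
    {l : α → A} {z : α → ℕ × Code A} (ho : Primrec o) (hl : Primrec l) (hz : Primrec z) :
    Primrec fun a => push b (o a) (l a) (z a) := by
  have c := Primrec.fst.comp hz
  have d := Primrec.snd.comp (Primrec.snd.comp hz)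
  refine (Primrec.succ.comp c).pair ((Primrec.list_append.comp (Primrec.list_map
    (Primrec.list_cons.comp (hl.pair (Primrec.fst.comp d)) ho)
    ((c.comp Primrec.fst).pair Primrec.snd).to₂) (Primrec.fst.comp (Primrec.snd.comp hz))).pair
    (c.pair (Primrec.cond (Primrec.const b) (Primrec.list_cons.comp c (Primrec.snd.comp d))
      (Primrec.snd.comp d))))

lemma family [Finite A] [Primcodable A] {L₁ L₀ : Language A} (h₁ : L₁.IsRegular)
    (h₀ : L₀.IsRegular) {p : ℕ → List A} (hp : Primrec p) :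
    ∃ N : ℕ → Code (Option A), Computable N ∧ ∀ n w, w ∈ (N n).lang ↔
      w ∈ up L₁ + hash A ∧ ¬ ∃ u ∈ L₀, w = none :: (p n ++ u).map some := by
  classical
  have := Fintype.ofFinite A
  let U : Language (Option A) := (up L₁ + hash A) ⊓ (cons none (up L₀))ᶜ
  have hU : ∀ w, w ∈ U ↔ (w ∈ up L₁ ∨ none ∈ w) ∧ ¬ ∃ u ∈ up L₀, w = none :: u :=
    fun w => Iff.rfl
  obtain ⟨z, e, i1, -, i2⟩ := exists_code' (L := U)
    (((up_reg h₁).add hash_reg).inf (cons_reg _ (up_reg h₀)).compl)
  have hne : ∀ l, (U.leftQuotient [l]).Nonempty := by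
    intro l
    refine ⟨[none], (hU _).2 ⟨Or.inr (by simp), ?_⟩⟩
    rintro ⟨_, ⟨u, -, rfl⟩, h⟩
    cases u <;> simp at h
  have hs : U.leftQuotient [none, none] = ⊤ := by
    ext w
    refine ⟨fun _ => trivial, fun _ => (hU _).2 ⟨Or.inr (by simp), ?_⟩⟩
    rintro ⟨_, ⟨u, -, rfl⟩, h⟩
    cases u <;> simp at h
  obtain ⟨s1, s2⟩ := i2 [none, none] (hs ▸ ⟨[], trivial⟩)
  let o : Option A → List (Option A × ℕ) := fun l =>
    (Finset.univ.filter (· ≠ l)).toList.map fun k => (k, e [none, none])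
  have ho : ∀ l x, x ∈ o l ↔ x.1 ≠ l ∧ x.2 = e [none, none] := by
    rintro l ⟨a, b⟩
    simp [o, eq_comm]
  let o' : List (Option A × ℕ) := (Finset.univ : Finset A).toList.map fun k => (some k, e [some k])
  let z₀ : ℕ × Code (Option A) := (z.1, z.2.1, e [none], z.2.2.2)
  have hb : ∀ q : List A, let y := q.foldr (fun l s => push true (o (some l)) (some l) s) z₀
      Inv y ∧ z.1 ≤ y.1 ∧ (∀ s < z.1, lg y s = lg z s) ∧
        ∀ w, w ∈ y.2.lang ↔ ¬ ∃ u ∈ L₀, w = (q ++ u).map some := by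
    intro q
    induction q with
    | nil =>
      refine ⟨⟨(i2 _ (hne none)).1, i1.2⟩, le_rfl, fun _ _ => rfl, fun w => ?_⟩
      change w ∈ lg z (e [none]) ↔ _
      rw [(i2 _ (hne none)).2, Language.mem_leftQuotient, hU]
      refine ⟨fun h ⟨u, hu, e⟩ => h.2 ⟨w, ⟨u, hu, e⟩, rfl⟩, fun h => ⟨Or.inr List.mem_cons_self, ?_⟩⟩
      rintro ⟨_, ⟨u, hu, rfl⟩, e⟩
      exact h ⟨u, hu, (List.cons.inj e).2⟩
    | cons l q ih =>
      obtain ⟨a1, a2, a3, a4⟩ := ih
      obtain ⟨b1, b2, b3⟩ := push_spec a1 true (o (some l))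
        (fun x hx => ((ho _ _).1 hx).2 ▸ s1.trans_le a2) (some l)
      refine ⟨b1, a2.trans (Nat.le_succ _), fun s hs => (b2 s (hs.trans_le a2)).trans (a3 s hs),
        fun w => (b3 w).trans ⟨?_, fun h => ?_⟩⟩
      · rintro (⟨rfl, -⟩ | ⟨u, hu, rfl⟩ | ⟨x, hx, u, -, rfl⟩) ⟨v, hv, h⟩
        · simp at h
        · exact (a4 u).1 hu ⟨v, hv, (List.cons.inj h).2⟩
        · exact ((ho _ _).1 hx).1 (List.cons.inj h).1
      · rcases w with _ | ⟨k, w⟩
        · exact Or.inl ⟨rfl, rfl⟩
        · right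
          by_cases hk : k = some l
          · subst hk
            exact Or.inl ⟨w, (a4 w).2 fun ⟨u, hu, e⟩ => h ⟨u, hu, by rw [e]; rfl⟩, rfl⟩
          · refine Or.inr ⟨(k, e [none, none]), (ho _ _).2 ⟨hk, rfl⟩, w, ?_, rfl⟩
            rw [a3 _ s1, s2, hs]
            trivial
  refine ⟨fun n => (push (decide ([] ∈ U)) o' none
    ((p n).foldr (fun l s => push true (o (some l)) (some l) s) z₀)).2, ?_, fun n w => ?_⟩
  · refine (Primrec.snd.comp (prim_push _ (Primrec.const _) (Primrec.const _) ?_)).to_comp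
    refine Primrec.list_foldr (h := fun _ (x : A × ℕ × Code (Option A)) =>
      push true (o (some x.1)) (some x.1) x.2) hp (Primrec.const z₀) ?_
    have a : Primrec fun y : ℕ × A × ℕ × Code (Option A) => some y.2.1 :=
      Primrec.option_some.comp (Primrec.fst.comp Primrec.snd)
    exact (prim_push true ((Primrec.dom_finite o).comp a) a (Primrec.snd.comp Primrec.snd)).to₂
  · obtain ⟨a1, a2, a3, a4⟩ := hb (p n)
    have ho' : ∀ x, x ∈ o' ↔ ∃ k, (some k, e [some k]) = x := by simp [o']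
    obtain ⟨-, -, b3⟩ := push_spec a1 (decide ([] ∈ U)) o' (fun x hx => by
      obtain ⟨k, rfl⟩ := (ho' x).1 hx
      exact (i2 _ (hne _)).1.trans_le a2) none
    refine (b3 w).trans ⟨?_, ?_⟩
    · rintro (⟨rfl, h⟩ | ⟨u, hu, rfl⟩ | ⟨x, hx, u, hu, rfl⟩)
      · exact ⟨(of_decide_eq_true h).1, by simp⟩
      · exact ⟨Or.inr List.mem_cons_self, fun ⟨v, hv, h⟩ =>
          (a4 u).1 hu ⟨v, hv, (List.cons.inj h).2⟩⟩
      · obtain ⟨k, rfl⟩ := (ho' x).1 hx
        rw [a3 _ (i2 _ (hne _)).1, (i2 _ (hne _)).2] at hu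
        exact ⟨hu.1, by simp⟩
    · rintro ⟨h1, h2⟩
      rcases w with _ | ⟨_ | k, w⟩
      · exact Or.inl ⟨rfl, decide_eq_true ((hU _).2 ⟨h1, by simp⟩)⟩
      · exact Or.inr (Or.inl ⟨w, (a4 w).2 fun ⟨u, hu, e⟩ => h2 ⟨u, hu, by rw [e]⟩, rfl⟩)
      · refine Or.inr (Or.inr ⟨_, (ho' _).2 ⟨k, rfl⟩, w, ?_, rfl⟩)
        rw [a3 _ (i2 _ (hne _)).1, (i2 _ (hne _)).2]
        exact (hU _).2 ⟨h1, by simp⟩

/-- the machine for `{λ} ∪ # L(M)` -/
def ext (M : DCM A) : DCM (Option A) where
  Q := Bool ⊕ M.Q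
  fin := by have := M.fin; infer_instance
  start := .inl true
  accept := {q | q = .inl true ∨ ∃ q' ∈ M.accept, q = .inr q'}
  δ | .inl true, none, _ => (.inr M.start, none)
    | .inr q, some a, z => (.inr (M.δ q a z).1, (M.δ q a z).2)
    | _, _, _ => (.inl false, none)
  nodec := by
    rintro ((_ | _) | q) (_ | a) <;> simp [M.nodec]

lemma run_snoc (M : DCM A) (w l) : M.run (w ++ [l]) = M.step (M.run w) l := by simp [DCM.run]

lemma ext_run (M : DCM A) (v : List A) :
    (ext M).run (none :: v.map some) = (.inr (M.run v).1, (M.run v).2) := by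
  induction v using List.reverseRecOn with
  | nil => rfl
  | append_singleton v l ih =>
    rw [List.map_append, ← List.cons_append, List.map_singleton, run_snoc, run_snoc, ih]
    rfl

lemma ext_cases (M : DCM A) (w : List (Option A)) :
    w = [] ∨ (∃ v : List A, w = none :: v.map some) ∨ ((ext M).run w).1 = .inl false := by
  induction w using List.reverseRecOn with
  | nil => exact Or.inl rfl
  | append_singleton w l ih =>
    right
    rw [run_snoc]
    rcases ih with rfl | ⟨v, rfl⟩ | h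
    · cases l
      · exact Or.inl ⟨[], rfl⟩
      · exact Or.inr rfl
    · cases l with
      | none => right; rw [ext_run]; rfl
      | some a => exact Or.inl ⟨v ++ [a], by simp⟩
    · right
      simp only [DCM.step, DCM.move, h]
      cases l <;> rfl

lemma ext_lang (M : DCM A) (w : List (Option A)) :
    w ∈ (ext M).lang ↔ w = [] ∨ ∃ v ∈ M.lang, w = none :: v.map some := by
  constructor
  · intro h
    change ((ext M).run w).1 ∈ (ext M).accept at h
    rcases ext_cases M w with rfl | ⟨v, rfl⟩ | h'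
    · exact Or.inl rfl
    · rw [ext_run] at h
      rcases h with h | ⟨q, hq, h⟩
      · cases h
      · cases h; exact Or.inr ⟨v, hq, rfl⟩
    · rw [h'] at h
      rcases h with h | ⟨q, -, h⟩ <;> cases h
  · rintro (rfl | ⟨v, hv, rfl⟩)
    · exact Or.inl rfl
    · change ((ext M).run _).1 ∈ (ext M).accept
      rw [ext_run]
      exact Or.inr ⟨_, hv, rfl⟩

lemma ext_move (M : DCM A) (w l b) (h : ((ext M).move ((ext M).run w) l).2 = some b) :
    ∃ (v : List A) (a : A), w = none :: v.map some ∧ l = some a ∧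
      (M.move (M.run v) a).2 = some b := by
  rcases ext_cases M w with rfl | ⟨v, rfl⟩ | h'
  · cases l <;> cases h
  · rw [ext_run] at h
    cases l with
    | none => cases h
    | some a => exact ⟨v, a, rfl, rfl, h⟩
  · simp only [DCM.move, h'] at h
    cases l <;> cases h

lemma ext_rev {M : DCM A} (h : M.OneReversal) : (ext M).OneReversal := by
  intro w₁ l w₂ l' h1 h2
  obtain ⟨v, a, rfl, rfl, h3⟩ := ext_move M _ _ _ h1
  obtain ⟨v', a', e, rfl, h4⟩ := ext_move M _ _ _ h2
  obtain ⟨x, y, rfl, e1, e2⟩ := List.map_eq_append_iff.1 (List.cons.inj e).2.symm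
  obtain rfl := List.map_injective_iff.2 (Option.some_injective A) e1
  obtain ⟨a'', y, rfl, e3, -⟩ := List.map_eq_cons_iff.1 e2
  cases e3
  exact h _ _ _ _ h3 h4

lemma sh_map {u v w : List A} (h : Sh u v w) : Sh (u.map some) (v.map some) (w.map some) := by
  induction h with
  | nil => exact .nil
  | left l _ ih => exact .left _ ih
  | right l _ ih => exact .right _ ih

lemma sh_red {u v w : List (Option A)} (h : Sh u v w) :
    Sh (u.filterMap id) (v.filterMap id) (w.filterMap id) := by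
  induction h with
  | nil => exact .nil
  | left l _ ih => cases l; exacts [ih, .left _ ih]
  | right l _ ih => cases l; exacts [ih, .right _ ih]

lemma sh_nil {u v w : List A} (h : Sh u v w) (hv : v = []) : w = u := by
  induction h with
  | nil => rfl
  | left l _ ih => rw [ih hv]
  | right l _ ih => cases hv

/-- There are a finite alphabet, a regular language `L` and a deterministic one-reversal
one-counter machine `M` such that it is undecidable, given a finite automaton for `L₁`, whether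
`L` equals the shuffle of `L₁` and `L(M)`. -/
theorem result : ∃ (A : Type) (_ : Finite A) (_ : Primcodable A) (L : Language A) (M : DCM A),
    L.IsRegular ∧ M.OneReversal ∧
      ¬ ComputablePred fun N : Code A => L = shuffle N.lang M.lang := by
  classical
  obtain ⟨A, _, _, L₁, L₀, M, p, h₁, h₀, hM, hp, hn⟩ := core
  obtain ⟨N, hN, hL⟩ := family h₁ h₀ hp
  refine ⟨Option A, inferInstance, inferInstance, up L₁ + hash A, ext M,
    (up_reg h₁).add hash_reg, ext_rev hM, fun h => hn ((CPred.ccomp h hN).of_eq fun n => ?_)⟩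
  constructor
  · intro e w hw
    have : none :: (p n ++ w).map some ∈ up L₁ + hash A := Or.inr List.mem_cons_self
    rw [e] at this
    obtain ⟨u, hu, v, hv, hs⟩ := this
    rw [hL] at hu
    rcases (ext_lang M v).1 hv with rfl | ⟨v', hv', rfl⟩
    · exact absurd ⟨w, hw, (sh_nil hs rfl).symm⟩ hu.2
    · rcases hu.1 with ⟨u', hu', rfl⟩ | hu'
      · exact ⟨u', hu', v', hv', by simpa using sh_red hs⟩
      · obtain ⟨u₁, u₂, rfl⟩ := List.append_of_mem hu'
        obtain ⟨v₁, v₂, w₁, w₂, e1, e2, s1, s2⟩ := hs.split _ _ _ rfl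
        rcases w₁ with _ | ⟨k, w₁⟩
        · have : none ∈ w₂ := by
            cases s1
            exact (s2.mem none).2 (Or.inr (by rw [show v₂ = _ from e1.symm]; simp))
          rw [← show _ = w₂ from (List.cons.inj e2).2] at this
          simp at this
        · have : none ∈ w₁ ++ none :: w₂ := by simp
          rw [← show _ = w₁ ++ none :: w₂ from (List.cons.inj e2).2] at this
          simp at this
  · intro H
    ext w
    constructor
    · intro hw
      by_cases hc : ∃ u ∈ L₀, w = none :: (p n ++ u).map some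
      · obtain ⟨z, hz, rfl⟩ := hc
        obtain ⟨u, hu, v, hv, hs⟩ := H z hz
        refine ⟨u.map some, (hL _ _).2 ⟨Or.inl ⟨u, hu, rfl⟩, ?_⟩, _,
          (ext_lang M _).2 (Or.inr ⟨v, hv, rfl⟩), .right _ (sh_map hs)⟩
        rintro ⟨x, -, h⟩
        cases u <;> simp at h
      · exact ⟨w, (hL _ _).2 ⟨hw, hc⟩, [], (ext_lang M _).2 (Or.inl rfl), .refl w⟩
    · rintro ⟨u, hu, v, hv, hs⟩
      rcases (ext_lang M v).1 hv with rfl | ⟨v, -, rfl⟩
      · rw [sh_nil hs rfl]
        exact ((hL _ _).1 hu).1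
      · exact Or.inr ((hs.mem none).2 (Or.inr List.mem_cons_self))

end Pool.Agent.Results.MP_435b2a_lc.Undec
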